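import Pool.Agent.Helper14.BSC.Stmts

/-!
# MP_8312c9_nt, module EMB: finitely generated fields embed into finite extensions of `ℚ_p`
-/

set_option autoImplicit false

namespace Pool.Agent.Helper14.BSC

open Cardinal

/-- a field with a countable transcendence basis over `ℚ` is countable -/
theorem emb_card (K : Type) [Field K] [Algebra ℚ K] (B : Type) (b : B → K)
    (hB : IsTranscendenceBasis ℚ b) (hc : Countable B) : Countable K := by
  have h1 : #(Algebra.adjoin ℚ (Set.range b)) ≤ ℵ₀ := by
    have e := hB.1.aevalEquiv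
    have h2 : #(Algebra.adjoin ℚ (Set.range b)) = #(MvPolynomial B ℚ) :=
      (Cardinal.mk_congr e.toEquiv).symm
    rw [h2]
    refine MvPolynomial.cardinalMk_le_max.trans ?_
    refine max_le (max_le ?_ ?_) le_rfl
    · exact Cardinal.mk_le_aleph0
    · exact Cardinal.mk_le_aleph0
  have h3 : Algebra.IsAlgebraic (Algebra.adjoin ℚ (Set.range b)) K :=
    hB.isAlgebraic
  have h4 := Algebra.IsAlgebraic.cardinalMk_le_max
    (Algebra.adjoin ℚ (Set.range b)) K
  rw [← Cardinal.mk_le_aleph0_iff]
  exact h4.trans (max_le h1 le_rfl)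

/-- a countable type maps injectively into a family of algebraically independent `p`-adic numbers -/
theorem emb_indep (p : ℕ) [Fact p.Prime] (B : Type) [Countable B] :
    ∃ x : B → ℚ_[p], AlgebraicIndependent ℚ x := by
  obtain ⟨T, t, hT⟩ := exists_isTranscendenceBasis' ℚ ℚ_[p]
  have h1 : ¬ Countable ℚ_[p] := by
    intro h
    have h2 := continuum_le_cardinal_of_nontriviallyNormedField ℚ_[p]
    have h3 : #ℚ_[p] ≤ ℵ₀ := Cardinal.mk_le_aleph0
    exact absurd (h2.trans h3) (not_le.2 Cardinal.aleph0_lt_continuum)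
  have h2 : Infinite T := by
    by_contra hn
    rw [not_infinite_iff_finite] at hn
    exact h1 (emb_card ℚ_[p] T t hT inferInstance)
  obtain ⟨f, hf⟩ := exists_injective_nat B
  exact ⟨fun b => t (Infinite.natEmbedding T (f b)),
    hT.1.comp (fun b => Infinite.natEmbedding T (f b))
      ((Infinite.natEmbedding T).injective.comp hf)⟩

theorem emb_gen (Q C : Type) [Field Q] [Field C] [Algebra Q C] [CharZero Q] [IsAlgClosed C]
    (k : Type) [Field k] [CharZero k] (S : Finset k)
    (hS : IntermediateField.adjoin ℚ (S : Set k) = ⊤) (B : Type) (b : B → k)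
    (hB : IsTranscendenceBasis ℚ b) (x : B → Q) (hx : AlgebraicIndependent ℚ x) :
    ∃ (σ : k →+* C) (E : IntermediateField Q C), FiniteDimensional Q E ∧ ∀ x, σ x ∈ E := by
  have halg : Algebra.IsAlgebraic (Algebra.adjoin ℚ (Set.range b)) k := hB.isAlgebraic
  let g : Algebra.adjoin ℚ (Set.range b) →+* Q :=
    ((MvPolynomial.aeval x : MvPolynomial B ℚ →ₐ[ℚ] Q) : MvPolynomial B ℚ →+* Q).comp
      (hB.1.aevalEquiv.symm.toRingEquiv : Algebra.adjoin ℚ (Set.range b) ≃+* MvPolynomial B ℚ).toRingHom
  have hg : Function.Injective g := by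
    intro u v huv
    exact hB.1.aevalEquiv.symm.injective (hx huv)
  let i1 : Algebra (Algebra.adjoin ℚ (Set.range b)) Q := g.toAlgebra
  let i2 : Algebra (Algebra.adjoin ℚ (Set.range b)) C := ((algebraMap Q C).comp g).toAlgebra
  have htow : IsScalarTower (Algebra.adjoin ℚ (Set.range b)) Q C :=
    IsScalarTower.of_algebraMap_eq (fun _ => rfl)
  have hinj : Function.Injective (algebraMap (Algebra.adjoin ℚ (Set.range b)) C) :=
    (algebraMap Q C).injective.comp hg
  have hf : FaithfulSMul (Algebra.adjoin ℚ (Set.range b)) C :=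
    (faithfulSMul_iff_algebraMap_injective _ _).2 hinj
  have σ : k →ₐ[Algebra.adjoin ℚ (Set.range b)] C := IsAlgClosed.lift
  have hfin : ∀ s ∈ S, IsIntegral Q (σ s) := by
    intro s _
    have h1 : IsAlgebraic (Algebra.adjoin ℚ (Set.range b)) (σ s) :=
      (Algebra.IsAlgebraic.isAlgebraic s).algHom σ
    have h2 : IsAlgebraic Q (σ s) := IsAlgebraic.extendScalars hg h1
    exact h2.isIntegral
  refine ⟨(σ : k →+* C), IntermediateField.adjoin Q (σ '' (S : Set k)), ?_, ?_⟩
  · have : Finite (σ '' (S : Set k)) := (S.finite_toSet.image σ).to_subtype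
    apply IntermediateField.finiteDimensional_adjoin
    rintro _ ⟨s, hs, rfl⟩
    exact hfin s hs
  · intro z
    have h1 : z ∈ IntermediateField.adjoin ℚ (S : Set k) := by
      rw [hS]; trivial
    induction h1 using IntermediateField.adjoin_induction with
    | mem s hs => exact IntermediateField.subset_adjoin _ _ ⟨s, hs, rfl⟩
    | algebraMap r =>
      have : (σ : k →+* C) (algebraMap ℚ k r) = algebraMap Q C (r : Q) := by
        simp
      rw [this]
      exact IntermediateField.algebraMap_mem _ _
    | add u v _ _ hu hv => rw [map_add]; exact add_mem hu hv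
    | inv u _ hu => rw [map_inv₀]; exact inv_mem hu
    | mul u v _ _ hu hv => rw [map_mul]; exact mul_mem hu hv

theorem st_EMB : ST_EMB := by
  intro k _ _ hfg p _
  obtain ⟨S, hS⟩ := hfg
  have hk : Countable k := by
    have h1 := IntermediateField.cardinalMk_adjoin_le ℚ (S : Set k)
    have h2 : #(⊤ : IntermediateField ℚ k) ≤ ℵ₀ := by
      rw [← hS]
      refine h1.trans (max_le (max_le ?_ ?_) le_rfl)
      · exact Cardinal.mk_le_aleph0
      · exact Cardinal.mk_le_aleph0
    have h3 : Countable (⊤ : IntermediateField ℚ k) := Cardinal.mk_le_aleph0_iff.1 h2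
    exact Countable.of_equiv _ (IntermediateField.topEquiv (F := ℚ) (E := k)).toEquiv
  obtain ⟨B, b, hB⟩ := exists_isTranscendenceBasis' ℚ k
  have hBc : Countable B := hB.1.injective.countable
  obtain ⟨x, hx⟩ := emb_indep p B
  exact emb_gen ℚ_[p] ℂ_[p] k S hS B b hB x hx

end Pool.Agent.Helper14.BSC
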